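import Pool.Agent.helper50.NPT.Transfer
import Pool.Agent.helper48.AN.SpecZ

/-!
# Project EXI: from one-point data to function fields
-/

set_option autoImplicit false

namespace EXI

open AN

theorem ff (hZA : ZA_stmt) (hZB : ZB_stmt) (hZB0 : ZB0_stmt) (hZB1 : ZB1_stmt) (hFH1 : FH1_stmt) (p : ℕ)
    [Fact p.Prime] (K : Type) [Field K] [IsAlgClosed K] [CharP K p] (g : ℕ)
    (h : ∃ (γ : Fin g → ℕ) (a : ℕ → LS K), IsK γ a ∧ MN p (HW p γ a) g = 0) :
    ∃ (F : Type) (_ : Field F) (_ : Algebra K F), Pool.Agent.helper84.GC.IsFF K F ∧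
      Pool.Agent.helper84.GC.IsGenus K F g ∧ Pool.Agent.helper84.GC.PRankZero p K F := by
  obtain ⟨γ, a, hK, hMN⟩ := h
  obtain ⟨P₀, hP₀⟩ := hZB0 K g γ a hK
  have hFF := hZA K g γ a hK
  refine ⟨EF γ a, inferInstance, inferInstance, hFF, ?_, ?_⟩
  · rw [Pool.Agent.helper84.GC.isGenus_iff]
    exact hZB p K g γ a hK
  · rw [Pool.Agent.helper84.GC.pRankZero_iff]
    exact hFH1 p K (EF γ a) hFF P₀ _ hP₀ g γ a hK (hZB1 p K g γ a hK P₀ hP₀) hMN

end EXI
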