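import Pool.Agent.helper7.AN.DJ0
import Pool.Agent.helper50.NPT.Spec1

/-!
# Project EXI: one-point data from a family with prescribed leading terms
-/

set_option autoImplicit false

namespace EXI

open scoped Classical
open AN NPT

noncomputable section

variable {K : Type} [Field K] {g : ℕ}

/-- the echelon basis attached to a family with leading terms `s^(-r)` -/
def ech (γ : Fin g → ℕ) (v : ℕ → LS K) (r : ℕ) : LS K :=
  v r - ∑ r' : Fin r, if Gp γ r' then 0 else cf (v r) (-((r' : ℕ) : ℤ)) • ech γ v r'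
termination_by r
decreasing_by exact r'.2

theorem ech_eq (γ : Fin g → ℕ) (v : ℕ → LS K) (r : ℕ) :
    ech γ v r = v r - ∑ r' : Fin r, if Gp γ r' then 0 else cf (v r) (-((r' : ℕ) : ℤ)) • ech γ v r' := by
  rw [ech]

theorem ech_zero (γ : Fin g → ℕ) (v : ℕ → LS K) : ech γ v 0 = v 0 := by
  rw [ech_eq]
  simp

theorem ech_GE (γ : Fin g → ℕ) (v : ℕ → LS K)
    (hv : ∀ r, ¬ Gp γ r → v r ∈ GE K (-(r : ℤ)) ∧ cf (v r) (-(r : ℤ)) = 1) (r : ℕ) (hr : ¬ Gp γ r) :
    ech γ v r ∈ GE K (-(r : ℤ)) := by
  induction r using Nat.strong_induction_on with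
  | _ r ih =>
    rw [ech_eq]
    refine Submodule.sub_mem _ (hv r hr).1 (Submodule.sum_mem _ fun r' _ => ?_)
    split_ifs with h
    · exact Submodule.zero_mem _
    · exact Submodule.smul_mem _ _ (GE_mono (by have := r'.2; omega) (ih r' r'.2 h))

theorem ech_coef (γ : Fin g → ℕ) (v : ℕ → LS K)
    (hv : ∀ r, ¬ Gp γ r → v r ∈ GE K (-(r : ℤ)) ∧ cf (v r) (-(r : ℤ)) = 1) (r r' : ℕ) (hr : ¬ Gp γ r)
    (hr' : ¬ Gp γ r') : cf (ech γ v r) (-(r' : ℤ)) = if r = r' then 1 else 0 := by
  induction r using Nat.strong_induction_on generalizing r' with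
  | _ r ih =>
    rcases lt_trichotomy r r' with h | h | h
    · rw [if_neg (by omega)]
      exact ech_GE γ v hv r hr _ (by omega)
    · subst h
      rw [if_pos rfl, ech_eq, cf_sub, cf_sum, (hv r hr).2]
      rw [Finset.sum_eq_zero, sub_zero]
      intro r' _
      split_ifs with h
      · rfl
      · rw [cf_smul, ech_GE γ v hv r' h _ (by have := r'.2; omega), mul_zero]
    · rw [if_neg (by omega), ech_eq, cf_sub, cf_sum]
      have e : ∀ x : Fin r, cf (if Gp γ x then 0 else cf (v r) (-((x : ℕ) : ℤ)) • ech γ v x) (-(r' : ℤ)) =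
          if x = ⟨r', h⟩ then cf (v r) (-(r' : ℤ)) else 0 := by
        intro x
        by_cases hx : Gp γ x
        · rw [if_pos hx, cf_zero, if_neg]
          rintro rfl
          exact hr' hx
        · rw [if_neg hx, cf_smul, ih x x.2 r' hx hr']
          by_cases h2 : (x : ℕ) = r'
          · rw [if_pos h2, if_pos (Fin.ext h2), h2, mul_one]
          · rw [if_neg h2, if_neg (fun h3 => h2 (by rw [h3])), mul_zero]
      rw [Finset.sum_congr rfl (fun x _ => e x), Finset.sum_ite_eq', if_pos (Finset.mem_univ _), sub_self]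

theorem ech_span (γ : Fin g → ℕ) (v : ℕ → LS K) : AA γ (ech γ v) = AA γ v := by
  have h1 : ∀ r, ¬ Gp γ r → ech γ v r ∈ AA γ v := by
    intro r
    induction r using Nat.strong_induction_on with
    | _ r ih =>
      intro hr
      rw [ech_eq]
      refine Submodule.sub_mem _ (Submodule.subset_span ⟨r, hr, rfl⟩) (Submodule.sum_mem _ fun r' _ => ?_)
      split_ifs with h
      · exact Submodule.zero_mem _
      · exact Submodule.smul_mem _ _ (ih r' r'.2 h)
  apply le_antisymm
  · refine Submodule.span_le.mpr ?_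
    rintro x ⟨r, hr, rfl⟩
    exact h1 r hr
  · refine Submodule.span_le.mpr ?_
    rintro x ⟨r, hr, rfl⟩
    have e : v r = ech γ v r + ∑ r' : Fin r, if Gp γ r' then 0 else cf (v r) (-((r' : ℕ) : ℤ)) • ech γ v r' := by
      rw [ech_eq γ v r, sub_add_cancel]
    rw [SetLike.mem_coe, e]
    refine Submodule.add_mem _ (Submodule.subset_span ⟨r, hr, rfl⟩) (Submodule.sum_mem _ fun r' _ => ?_)
    split_ifs with h
    · exact Submodule.zero_mem _
    · exact Submodule.smul_mem _ _ (Submodule.subset_span ⟨r', h, rfl⟩)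

/-- ONE-POINT DATA from a family `v` with leading terms `s^(-r)` and a space `W` of differentials (`W = A ω₀` in the examples). -/
theorem isK_of (γ : Fin g → ℕ) (v : ℕ → LS K) (hinj : Function.Injective γ) (hpos : ∀ i, 0 < γ i)
    (hv0 : v 0 = 1)
    (hv : ∀ r, ¬ Gp γ r → v r ∈ GE K (-(r : ℤ)) ∧ cf (v r) (-(r : ℤ)) = 1)
    (hmul : ∀ r r', ¬ Gp γ r → ¬ Gp γ r' → v r * v r' ∈ AA γ v)
    (W : Submodule K (LS K)) (hWO : W ≤ OmA γ v)
    (hW : ∀ n : ℤ, (n ≤ -2 ∨ ∃ i, n = (γ i : ℤ) - 1) → ∃ w ∈ W, w ∈ GE K n ∧ cf w n ≠ 0)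
    (hres : ∀ r, ¬ Gp γ r → ∀ w ∈ W, res (v r * w) = 0) (hdd : ∀ r, ¬ Gp γ r → dd (v r) ∈ W) :
    IsK γ (ech γ v) ∧ AA γ (ech γ v) = AA γ v := by
  have hsp := ech_span γ v
  have hres2 : ∀ x ∈ AA γ v, ∀ w ∈ W, res (x * w) = 0 := by
    intro x hx w hw
    unfold AA at hx
    induction hx using Submodule.span_induction with
    | mem x hx =>
      obtain ⟨r, hr, rfl⟩ := hx
      exact hres r hr w hw
    | zero => rw [zero_mul]; rfl
    | add x y _ _ h1 h2 => rw [add_mul, res_add, h1, h2, add_zero]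
    | smul c x _ h1 => rw [smul_mul_assoc, res_smul, h1, mul_zero]
  have hdd2 : ∀ x ∈ AA γ v, dd x ∈ W := by
    intro x hx
    unfold AA at hx
    induction hx using Submodule.span_induction with
    | mem x hx =>
      obtain ⟨r, hr, rfl⟩ := hx
      exact hdd r hr
    | zero => rw [map_zero]; exact Submodule.zero_mem _
    | add x y _ _ h1 h2 => rw [map_add]; exact Submodule.add_mem _ h1 h2
    | smul c x _ h1 => rw [map_smul]; exact Submodule.smul_mem _ _ h1
  have hmul2 : ∀ x ∈ AA γ v, ∀ y ∈ AA γ v, x * y ∈ AA γ v := by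
    intro x hx y hy
    unfold AA at hx
    induction hx using Submodule.span_induction with
    | mem x hx =>
      obtain ⟨r, hr, rfl⟩ := hx
      unfold AA at hy
      induction hy using Submodule.span_induction with
      | mem y hy =>
        obtain ⟨r', hr', rfl⟩ := hy
        exact hmul r r' hr hr'
      | zero => rw [mul_zero]; exact Submodule.zero_mem _
      | add x y _ _ h1 h2 => rw [mul_add]; exact Submodule.add_mem _ h1 h2
      | smul c x _ h1 => rw [mul_smul_comm]; exact Submodule.smul_mem _ _ h1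
    | zero => rw [zero_mul]; exact Submodule.zero_mem _
    | add x y _ _ h1 h2 => rw [add_mul]; exact Submodule.add_mem _ h1 h2
    | smul c x _ h1 => rw [smul_mul_assoc]; exact Submodule.smul_mem _ _ h1
  have hech : ∀ r, ¬ Gp γ r → ech γ v r ∈ AA γ v := by
    intro r hr
    rw [← hsp]
    exact Submodule.subset_span ⟨r, hr, rfl⟩
  have hcoef := ech_coef γ v hv
  have hOm : OmA γ (ech γ v) = OmA γ v := by
    unfold OmA
    rw [hsp]
  have h0 : ech γ v 0 = 1 := by rw [ech_zero, hv0]
  have hd0 := DJ0 K g γ (ech γ v) hinj hpos h0 hcoef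
  obtain ⟨B, hB0, hB⟩ : ∃ B : ℤ, 0 ≤ B ∧ ∀ i, (γ i : ℤ) - 1 ≤ B := by
    refine ⟨((∑ i, γ i : ℕ) : ℤ), by positivity, fun i => ?_⟩
    have := Finset.single_le_sum (f := γ) (fun j _ => Nat.zero_le _) (Finset.mem_univ i)
    omega
  have hresW : ∀ w ∈ W, ∀ r, ¬ Gp γ r → res (ech γ v r * w) = 0 := fun w hw r hr => hres2 _ (hech r hr) w hw
  have key : ∀ k : ℕ, ∀ n : ℤ, (n ≤ -2 ∨ ∃ i, n = (γ i : ℤ) - 1) → B + 1 - n ≤ k →
      om γ (ech γ v) n ∈ W := by
    intro k
    induction k with
    | zero =>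
      intro n hn hk
      exfalso
      push_cast at hk
      rcases hn with h | ⟨i, h⟩
      · omega
      · have h1 := hB i
        omega
    | succ k ih =>
      intro n hn hk
      push_cast at hk
      obtain ⟨w, hw, hwn, hc⟩ := hW n hn
      obtain ⟨M, hM⟩ := exists_lb_nat w
      have hexp := hd0.2 M w (fun r hr => hresW w hw r hr) (fun m hm => hM m hm)
      have hterm : ∀ m : ℤ, (m ≤ -2 ∨ ∃ i, m = (γ i : ℤ) - 1) → m ≠ n →
          cf w m • om γ (ech γ v) m ∈ W := by
        intro m hm hmn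
        rcases lt_or_gt_of_ne hmn with h | h
        · rw [hwn m h, zero_smul]
          exact Submodule.zero_mem _
        · exact Submodule.smul_mem _ _ (ih m hm (by omega))
      have hfin : cf w n • om γ (ech γ v) n ∈ W := by
        rcases hn with h | ⟨i, h⟩
        · have hnM : -(M : ℤ) ≤ n := by
            by_contra hcon
            exact hc (hM n (by omega))
          have hmem : n ∈ Finset.Icc (-(M : ℤ)) (-2) := Finset.mem_Icc.mpr ⟨hnM, h⟩
          rw [← Finset.add_sum_erase _ _ hmem] at hexp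
          have e : cf w n • om γ (ech γ v) n = w -
              (∑ x ∈ (Finset.Icc (-(M : ℤ)) (-2)).erase n, cf w x • om γ (ech γ v) x +
              ∑ i, cf w ((γ i : ℤ) - 1) • om γ (ech γ v) ((γ i : ℤ) - 1)) := by
            rw [eq_sub_iff_add_eq, ← add_assoc]
            exact hexp.symm
          rw [e]
          refine Submodule.sub_mem _ hw (Submodule.add_mem _ (Submodule.sum_mem _ fun x hx => ?_)
            (Submodule.sum_mem _ fun j _ => ?_))
          · rw [Finset.mem_erase, Finset.mem_Icc] at hx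
            exact hterm x (Or.inl hx.2.2) hx.1
          · exact hterm _ (Or.inr ⟨j, rfl⟩) (by have := hpos j; omega)
        · rw [← Finset.add_sum_erase _ _ (Finset.mem_univ i)] at hexp
          have e : cf w ((γ i : ℤ) - 1) • om γ (ech γ v) ((γ i : ℤ) - 1) = w -
              (∑ x ∈ Finset.Icc (-(M : ℤ)) (-2), cf w x • om γ (ech γ v) x +
              ∑ j ∈ Finset.univ.erase i, cf w ((γ j : ℤ) - 1) • om γ (ech γ v) ((γ j : ℤ) - 1)) := by
            rw [eq_sub_iff_add_eq]
            rw [show ∀ x y z : LS K, x + (y + z) = y + (x + z) from fun x y z => by ring]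
            exact hexp.symm
          rw [h, e]
          refine Submodule.sub_mem _ hw (Submodule.add_mem _ (Submodule.sum_mem _ fun x hx => ?_)
            (Submodule.sum_mem _ fun j hj => ?_))
          · rw [Finset.mem_Icc] at hx
            exact hterm x (Or.inl hx.2) (by have := hpos i; omega)
          · refine hterm _ (Or.inr ⟨j, rfl⟩) ?_
            intro h2
            rw [Finset.mem_erase] at hj
            apply hj.1
            apply hinj
            omega
      have := Submodule.smul_mem W (cf w n)⁻¹ hfin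
      rwa [smul_smul, inv_mul_cancel₀ hc, one_smul] at this
  have hgen : ∀ n : ℤ, (n ≤ -2 ∨ ∃ i, n = (γ i : ℤ) - 1) → om γ (ech γ v) n ∈ OmA γ (ech γ v) := by
    intro n hn
    rw [hOm]
    exact hWO (key (B + 1 - n).toNat n hn (by omega))
  refine ⟨⟨hinj, hpos, h0, hcoef, ?_, ?_, hgen⟩, hsp⟩
  · intro r r' hr hr'
    rw [hsp]
    exact hmul2 _ (hech r hr) _ (hech r' hr')
  · intro r r' hr hr'
    exact hresW _ (hdd2 _ (hech r' hr')) r hr

end

end EXI
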