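import Pool.Agent.helper14.NPT.LIN
import Pool.Agent.helper48.AN.SpecP
import Pool.Agent.helper50.NPT.Spec1

/-!
# Project EXI: nilpotency of the Hasse-Witt matrix from the nilpotency of Frobenius on `LS / (A + PS)`
-/

set_option autoImplicit false

namespace EXI

open scoped Classical
open AN NPT

noncomputable section

theorem rank_zero {K : Type} [Field K] {m n : ℕ} (M : Matrix (Fin m) (Fin n) K) (h : M.rank = 0) : M = 0 := by
  unfold Matrix.rank at h
  have h1 : LinearMap.range M.mulVecLin = ⊥ := Submodule.finrank_eq_zero.mp h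
  ext i j
  have h2 : M.mulVec (Pi.single j 1) = 0 := by
    have h3 : M.mulVecLin (Pi.single j 1) ∈ LinearMap.range M.mulVecLin := ⟨_, rfl⟩
    rw [h1, Submodule.mem_bot] at h3
    exact h3
  have h4 := congrFun h2 i
  simpa using h4

theorem nil_of (hCRD : CRD_stmt) (hPF : PF_stmt) (p : ℕ) [hp : Fact p.Prime] (K : Type) [Field K] [CharP K p]
    {g : ℕ} (γ : Fin g → ℕ) (a : ℕ → LS K) (hK : IsK γ a) (N : ℕ)
    (h : ∀ f : LS K, ∃ α ∈ AA γ a, ∃ o ∈ PS K, f ^ p ^ N = α + o) : MN p (HW p γ a) g = 0 := by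
  obtain ⟨cadd, czero, cee, cpow, -⟩ := hCRD p K g γ a hK
  have hit : ∀ (n : ℕ) (f : LS K), crd γ a (f ^ p ^ n) = (Fr p (HW p γ a))^[n] (crd γ a f) := by
    intro n
    induction n with
    | zero => intro f; rw [pow_zero, pow_one, Function.iterate_zero, id_eq]
    | succ n ih =>
      intro f
      rw [pow_succ, pow_mul, cpow, ih, Function.iterate_succ_apply']
  have hn : ∀ u : Fin g → K, (MN p (HW p γ a) (N + g)).mulVec ((frV p)^[N + g] u) = 0 := by
    intro u
    rw [← LIN_it_MN, ← cee u, ← hit]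
    rw [czero]
    obtain ⟨α, hα, o, ho, e⟩ := h (ee γ u ^ p ^ g)
    refine ⟨α, hα, o, ho, ?_⟩
    rw [← e, ← pow_mul, ← pow_add, add_comm]
  have hsingle : ∀ (n : ℕ) (j : Fin g), (frV p)^[n] (Pi.single j (1 : K)) = Pi.single j 1 := by
    intro n j
    induction n with
    | zero => rfl
    | succ n ih =>
      rw [Function.iterate_succ_apply', ih]
      funext i
      unfold frV
      by_cases hij : i = j
      · subst hij; simp
      · rw [Pi.single_eq_of_ne hij, zero_pow hp.out.ne_zero]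
  have hM : MN p (HW p γ a) (N + g) = 0 := by
    ext i j
    have h1 := hn (Pi.single j 1)
    rw [hsingle] at h1
    have h4 := congrFun h1 i
    simpa using h4
  apply rank_zero
  rw [← (hPF p K g (HW p γ a)).2 (N + g) (by omega), hM]
  exact Matrix.rank_zero

/-- an additive set of Laurent series with elements of every negative order is everything -/
theorem all_of {K : Type} [Field K] (U : AddSubgroup (LS K)) (hPS : ∀ o ∈ PS K, o ∈ U)
    (hsmul : ∀ (c : K), ∀ x ∈ U, c • x ∈ U)
    (hlead : ∀ n : ℕ, 0 < n → ∃ x ∈ U, x ∈ GE K (-(n : ℤ)) ∧ cf x (-(n : ℤ)) ≠ 0) (f : LS K) : f ∈ U := by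
  have key : ∀ n : ℕ, ∀ f : LS K, f ∈ GE K (-(n : ℤ)) → f ∈ U := by
    intro n
    induction n with
    | zero => intro f hf; exact hPS f (by simpa using hf)
    | succ n ih =>
      intro f hf
      obtain ⟨x, hx, hxn, hc⟩ := hlead (n + 1) (by omega)
      have h1 : f - (cf f (-((n + 1 : ℕ) : ℤ)) / cf x (-((n + 1 : ℕ) : ℤ))) • x ∈ GE K (-(n : ℤ)) := by
        intro m hm
        rw [cf_sub, cf_smul]
        rcases lt_or_eq_of_le (show m ≤ -((n + 1 : ℕ) : ℤ) by push_cast; omega) with h2 | h2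
        · rw [hf m h2, hxn m h2, mul_zero, sub_zero]
        · rw [h2, div_mul_cancel₀ _ hc, sub_self]
      have h2 := U.add_mem (ih _ h1) (hsmul (cf f (-((n + 1 : ℕ) : ℤ)) / cf x (-((n + 1 : ℕ) : ℤ))) x hx)
      rwa [sub_add_cancel] at h2
  obtain ⟨N, hN⟩ := exists_lb_nat f
  exact key N f (fun m hm => hN m hm)

end

end EXI
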