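import Pool.Agent.helper50.EXI.Gen
import Pool.Agent.helper50.EXI.Nil
import Pool.Agent.helper97.AN.FC1
import Pool.Agent.helper97.AN.FT

/-!
# Project EXI: one-point data of the hyperelliptic curves `y^2 + h y = f`, `deg f = 2g + 1`
-/

set_option autoImplicit false

namespace EXI

open scoped Classical
open AN NPT

noncomputable section

variable {K : Type} [Field K]

/-- all exponents are in one residue class -/
def Hom (n : ℕ) (c : ℤ) (f : LS K) : Prop := ∀ m : ℤ, cf f m ≠ 0 → (n : ℤ) ∣ m - c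

theorem Hom.mul {n : ℕ} {c d : ℤ} {f g : LS K} (hf : Hom n c f) (hg : Hom n d g) : Hom n (c + d) (f * g) := by
  intro m hm
  obtain ⟨a, ha⟩ := exists_lb f
  obtain ⟨b, hb⟩ := exists_lb g
  rw [cf_mul_finset f g m ha hb] at hm
  obtain ⟨i, _, hi⟩ := Finset.exists_ne_zero_of_sum_ne_zero hm
  have h1 := hf i (left_ne_zero_of_mul hi)
  have h2 := hg (m - i) (right_ne_zero_of_mul hi)
  have e : m - (c + d) = (i - c) + (m - i - d) := by ring
  rw [e]
  exact dvd_add h1 h2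

theorem Hom.pow {n : ℕ} {c : ℤ} {f : LS K} (hf : Hom n c f) (k : ℕ) : Hom n (k * c) (f ^ k) := by
  induction k with
  | zero =>
    intro m hm
    rw [pow_zero, cf_one] at hm
    have : m = 0 := by
      by_contra h
      exact hm (if_neg h)
    subst this
    simp
  | succ k ih =>
    rw [pow_succ]
    have e : ((k + 1 : ℕ) : ℤ) * c = k * c + c := by push_cast; ring
    rw [e]
    exact ih.mul hf

theorem Hom.dd {n : ℕ} {c : ℤ} {f : LS K} (hf : Hom n c f) : Hom n (c - 1) (dd f) := by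
  intro m hm
  rw [cf_dd] at hm
  have h1 := hf (m + 1) (right_ne_zero_of_mul hm)
  have e : m - (c - 1) = m + 1 - c := by ring
  rw [e]
  exact h1

theorem Hom.mono (n : ℕ) (m : ℤ) (c : K) : Hom n m (AN.mono m c) := by
  intro i hi
  rw [cf_mono] at hi
  have : i = m := by
    by_contra h
    exact hi (if_neg h)
  subst this
  simp

theorem Hom.congr {n : ℕ} {c d : ℤ} {f : LS K} (hf : Hom n c f) (h : (n : ℤ) ∣ c - d) : Hom n d f := by
  intro m hm
  have h1 := hf m hm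
  have e : m - d = (m - c) + (c - d) := by ring
  rw [e]
  exact dvd_add h1 h

theorem pow_lead {f : LS K} {m : ℤ} (hf : f ∈ GE K m) (k : ℕ) :
    f ^ k ∈ GE K (k * m) ∧ cf (f ^ k) (k * m) = cf f m ^ k := by
  induction k with
  | zero =>
    simp only [pow_zero, Nat.cast_zero, zero_mul]
    exact ⟨one_mem_PS, by rw [cf_one, if_pos rfl]⟩
  | succ k ih =>
    have e : ((k + 1 : ℕ) : ℤ) * m = k * m + m := by push_cast; ring
    rw [e, pow_succ]
    exact ⟨GE_mul ih.1 hf, by rw [cf_mul_lead ih.1 hf, ih.2, pow_succ]⟩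

theorem mono_ne_zero (m : ℤ) : (mono m 1 : LS K) ≠ 0 := by
  intro h
  have := congrArg (fun f => cf f m) h
  simp only [cf_mono, if_true, cf_zero] at this
  exact one_ne_zero this

theorem mono_pow (m : ℤ) (c : K) (k : ℕ) : (mono m c : LS K) ^ k = mono (k * m) (c ^ k) := by
  induction k with
  | zero => simp [← C_eq_mono]
  | succ k ih =>
    rw [pow_succ, ih, mono_mul_mono, pow_succ]
    congr 1
    push_cast
    ring

/-- the gaps `1, 3, .., 2g-1` -/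
def oddγ (g : ℕ) : Fin g → ℕ := fun i => 2 * i + 1

theorem Gp_oddγ (g r : ℕ) : Gp (oddγ g) r ↔ r % 2 = 1 ∧ r < 2 * g + 1 := by
  constructor
  · rintro ⟨i, hi⟩
    have := i.2
    unfold oddγ at hi
    omega
  · rintro ⟨h1, h2⟩
    refine ⟨⟨r / 2, by omega⟩, ?_⟩
    show 2 * (r / 2) + 1 = r
    omega

/-- the family `x^i`, `x^i y` by pole order -/
def hv (g : ℕ) (x y : LS K) (r : ℕ) : LS K :=
  if r % 2 = 0 then x ^ (r / 2) else x ^ ((r - (2 * g + 1)) / 2) * y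

theorem hv_even (g : ℕ) (x y : LS K) (i : ℕ) : hv g x y (2 * i) = x ^ i := by
  unfold hv
  rw [if_pos (by omega)]
  congr 1
  omega

theorem hv_odd (g : ℕ) (x y : LS K) (i : ℕ) : hv g x y (2 * g + 1 + 2 * i) = x ^ i * y := by
  unfold hv
  rw [if_neg (by omega)]
  congr 2
  omega

theorem hv_cases (g r : ℕ) (hr : ¬ Gp (oddγ g) r) : (∃ i, r = 2 * i) ∨ ∃ i, r = 2 * g + 1 + 2 * i := by
  rw [Gp_oddγ] at hr
  rcases Nat.even_or_odd' r with ⟨i, h | h⟩
  · exact Or.inl ⟨i, h⟩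
  · exact Or.inr ⟨i - g, by omega⟩

theorem hv_x_mem (g : ℕ) (x y : LS K) (i : ℕ) : x ^ i ∈ AA (oddγ g) (hv g x y) :=
  Submodule.subset_span ⟨2 * i, by rw [Gp_oddγ]; omega, (hv_even g x y i).symm⟩

theorem hv_y_mem (g : ℕ) (x y : LS K) (i : ℕ) : x ^ i * y ∈ AA (oddγ g) (hv g x y) :=
  Submodule.subset_span ⟨2 * g + 1 + 2 * i, by rw [Gp_oddγ]; omega, (hv_odd g x y i).symm⟩

theorem hv_ind (g : ℕ) (x y : LS K) (S : Submodule K (LS K)) (h1 : ∀ i : ℕ, x ^ i ∈ S)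
    (h2 : ∀ i : ℕ, x ^ i * y ∈ S) : AA (oddγ g) (hv g x y) ≤ S := by
  refine Submodule.span_le.mpr ?_
  rintro z ⟨r, hr, rfl⟩
  rcases hv_cases g r hr with ⟨i, rfl⟩ | ⟨i, rfl⟩
  · rw [hv_even]; exact h1 i
  · rw [hv_odd]; exact h2 i

/-- the one-point data of `y^2 + h y = f`: general form. `W = A ω₀`. -/
theorem hv_isK (g : ℕ) (x y ω : LS K) (hx : x ∈ GE K (-2)) (hx1 : cf x (-2) = 1)
    (hy : y ∈ GE K (-((2 * g + 1 : ℕ) : ℤ))) (hy1 : cf y (-((2 * g + 1 : ℕ) : ℤ)) = 1)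
    (hyy : y ^ 2 ∈ AA (oddγ g) (hv g x y))
    (hω : ω ∈ GE K (2 * (g : ℤ) - 2)) (hω1 : cf ω (2 * (g : ℤ) - 2) ≠ 0)
    (hωO : ω ∈ OmA (oddγ g) (hv g x y))
    (hres : ∀ f ∈ AA (oddγ g) (hv g x y), res (f * ω) = 0)
    (hdx : ∃ f ∈ AA (oddγ g) (hv g x y), dd x = f * ω)
    (hdy : ∃ f ∈ AA (oddγ g) (hv g x y), dd y = f * ω) :
    IsK (oddγ g) (ech (oddγ g) (hv g x y)) ∧
      AA (oddγ g) (ech (oddγ g) (hv g x y)) = AA (oddγ g) (hv g x y) := by
  obtain ⟨A, hA⟩ : ∃ A, A = AA (oddγ g) (hv g x y) := ⟨_, rfl⟩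
  have hXm : ∀ i, x ^ i ∈ A := fun i => by rw [hA]; exact hv_x_mem g x y i
  have hYm : ∀ i, x ^ i * y ∈ A := fun i => by rw [hA]; exact hv_y_mem g x y i
  have hind : ∀ S : Submodule K (LS K), (∀ i : ℕ, x ^ i ∈ S) → (∀ i : ℕ, x ^ i * y ∈ S) → A ≤ S := by
    rw [hA]; exact hv_ind g x y
  -- multiplication by x
  have hmx : ∀ i : ℕ, ∀ f ∈ A, x ^ i * f ∈ A := by
    intro i f hf
    have h1 : A ≤ A.comap (LinearMap.mulLeft K (x ^ i)) := by
      apply hind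
      · intro j
        rw [Submodule.mem_comap, LinearMap.mulLeft_apply, ← pow_add]
        exact hXm _
      · intro j
        rw [Submodule.mem_comap, LinearMap.mulLeft_apply, ← mul_assoc, ← pow_add]
        exact hYm _
    exact h1 hf
  have hmy : ∀ i : ℕ, ∀ f ∈ A, x ^ i * y * f ∈ A := by
    intro i f hf
    have h1 : A ≤ A.comap (LinearMap.mulLeft K (x ^ i * y)) := by
      apply hind
      · intro j
        rw [Submodule.mem_comap, LinearMap.mulLeft_apply]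
        have e : x ^ i * y * x ^ j = x ^ (i + j) * y := by ring
        rw [e]
        exact hYm _
      · intro j
        rw [Submodule.mem_comap, LinearMap.mulLeft_apply]
        have e : x ^ i * y * (x ^ j * y) = x ^ (i + j) * y ^ 2 := by ring
        rw [e]
        exact hmx _ _ (by rw [hA]; exact hyy)
    exact h1 hf
  have hmul : ∀ f ∈ A, ∀ h ∈ A, f * h ∈ A := by
    intro f hf h hh
    have h1 : A ≤ A.comap (LinearMap.mulRight K h) := by
      apply hind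
      · intro j
        rw [Submodule.mem_comap, LinearMap.mulRight_apply]
        exact hmx j h hh
      · intro j
        rw [Submodule.mem_comap, LinearMap.mulRight_apply]
        exact hmy j h hh
    exact h1 hf
  have hlead : ∀ r, ¬ Gp (oddγ g) r → hv g x y r ∈ GE K (-(r : ℤ)) ∧ cf (hv g x y r) (-(r : ℤ)) = 1 := by
    intro r hr
    rcases hv_cases g r hr with ⟨i, rfl⟩ | ⟨i, rfl⟩
    · rw [hv_even]
      obtain ⟨h1, h2⟩ := pow_lead hx i
      have e : -((2 * i : ℕ) : ℤ) = (i : ℤ) * -2 := by push_cast; ring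
      rw [e]
      exact ⟨h1, by rw [h2, hx1, one_pow]⟩
    · rw [hv_odd]
      obtain ⟨h1, h2⟩ := pow_lead hx i
      have e : -((2 * g + 1 + 2 * i : ℕ) : ℤ) = (i : ℤ) * -2 + -((2 * g + 1 : ℕ) : ℤ) := by push_cast; ring
      rw [e]
      exact ⟨GE_mul h1 hy, by rw [cf_mul_lead h1 hy, h2, hx1, one_pow, hy1, mul_one]⟩
  have hA1 : (1 : LS K) ∈ A := by simpa using hXm 0
  have hmemv : ∀ r, ¬ Gp (oddγ g) r → hv g x y r ∈ A := by
    intro r hr
    rw [hA]
    exact Submodule.subset_span ⟨r, hr, rfl⟩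
  refine isK_of (oddγ g) (hv g x y) ?_ ?_ ?_ hlead ?_ (A.map (LinearMap.mulRight K ω)) ?_ ?_ ?_ ?_
  · intro i j hij
    have h1 : 2 * (i : ℕ) + 1 = 2 * j + 1 := hij
    exact Fin.ext (by omega)
  · intro i
    show 0 < 2 * (i : ℕ) + 1
    omega
  · simpa using hv_even g x y 0
  · intro r r' hr hr'
    rw [← hA]
    exact hmul _ (hmemv r hr) _ (hmemv r' hr')
  · rintro z ⟨f, hf, rfl⟩
    rw [LinearMap.mulRight_apply]
    unfold OmA at hωO ⊢
    rw [← hA] at hωO ⊢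
    have h1 : Submodule.span K {z : LS K | ∃ f ∈ A, ∃ h ∈ A, z = f * dd h} ≤
        (Submodule.span K {z : LS K | ∃ f ∈ A, ∃ h ∈ A, z = f * dd h}).comap (LinearMap.mulLeft K f) := by
      refine Submodule.span_le.mpr ?_
      rintro z ⟨f', hf', h, hh, rfl⟩
      rw [SetLike.mem_coe, Submodule.mem_comap, LinearMap.mulLeft_apply]
      exact Submodule.subset_span ⟨f * f', hmul f hf f' hf', h, hh, by ring⟩
    exact h1 hωO
  · intro n hn
    have hr : ∃ r : ℕ, ¬ Gp (oddγ g) r ∧ n = 2 * (g : ℤ) - 2 - r := by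
      rcases hn with h | ⟨i, h⟩
      · refine ⟨(2 * (g : ℤ) - 2 - n).toNat, ?_, by omega⟩
        rw [Gp_oddγ]
        omega
      · have hi := i.2
        have h' : n = ((2 * (i : ℕ) + 1 : ℕ) : ℤ) - 1 := h
        refine ⟨(2 * (g : ℤ) - 2 - n).toNat, ?_, by omega⟩
        rw [Gp_oddγ]
        omega
    obtain ⟨r, hr, hn⟩ := hr
    obtain ⟨h1, h2⟩ := hlead r hr
    have e : n = -(r : ℤ) + (2 * (g : ℤ) - 2) := by rw [hn]; ring
    refine ⟨hv g x y r * ω, ⟨_, hmemv r hr, rfl⟩, ?_, ?_⟩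
    · rw [e]; exact GE_mul h1 hω
    · rw [e, cf_mul_lead h1 hω, h2, one_mul]; exact hω1
  · rintro r hr w ⟨f, hf, rfl⟩
    rw [LinearMap.mulRight_apply, ← mul_assoc]
    exact hres _ (by rw [← hA]; exact hmul _ (hmemv r hr) _ hf)
  · intro r hr
    obtain ⟨fx, hfx, ex⟩ := hdx
    obtain ⟨fy, hfy, ey⟩ := hdy
    rw [← hA] at hfx hfy
    have hpow : ∀ i : ℕ, ∃ f ∈ A, dd (x ^ i) = f * ω := by
      intro i
      rw [dd_pow, ex]
      refine ⟨(i : LS K) * x ^ (i - 1) * fx, ?_, by ring⟩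
      have h1 := Submodule.smul_mem A (i : K) (hmul _ (hXm (i - 1)) _ hfx)
      rw [← C_mul, map_natCast, ← mul_assoc] at h1
      exact h1
    rcases hv_cases g r hr with ⟨i, rfl⟩ | ⟨i, rfl⟩
    · rw [hv_even]
      obtain ⟨f, hf, e⟩ := hpow i
      exact ⟨f, hf, e.symm⟩
    · rw [hv_odd, dd_mul]
      obtain ⟨f, hf, e⟩ := hpow i
      rw [e, ey]
      refine ⟨f * y + x ^ i * fy, ?_, ?_⟩
      · refine Submodule.add_mem _ (hmul _ hf _ ?_) (hmul _ (hXm i) _ hfy)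
        simpa using hYm 0
      · rw [LinearMap.mulRight_apply]
        ring

/-- nilpotency of the Hasse-Witt matrix: it is enough to look at the `y / x^j`, `1 ≤ j ≤ g`. -/
theorem hv_nil (hCRD : CRD_stmt) (hPF : PF_stmt) (hKB : KB_stmt) (p : ℕ) [hp : Fact p.Prime] [CharP K p]
    (g : ℕ) (x y : LS K) (hx : x ∈ GE K (-2)) (hx1 : cf x (-2) ≠ 0)
    (hy : y ∈ GE K (-((2 * g + 1 : ℕ) : ℤ))) (hy1 : cf y (-((2 * g + 1 : ℕ) : ℤ)) ≠ 0)
    (a : ℕ → LS K) (hK : IsK (oddγ g) a) (hA : AA (oddγ g) a = AA (oddγ g) (hv g x y)) (N : ℕ)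
    (hz : ∀ j : ℕ, 1 ≤ j → j ≤ g → ∃ α ∈ AA (oddγ g) a, ∃ o ∈ PS K, (y * (x ^ j)⁻¹) ^ p ^ N = α + o) :
    MN p (HW p (oddγ g) a) g = 0 := by
  have hchar : CharP (LS K) p := charP_of_injective_ringHom (f := (LS.C : K →+* LS K)) HahnSeries.C_injective p
  obtain ⟨-, kb_C, -, kb_mul, -, -, -, -⟩ := hKB K g (oddγ g) a hK
  have h1A : (1 : LS K) ∈ AA (oddγ g) a := by
    have := kb_C 1
    rwa [map_one] at this
  have hpowA : ∀ f ∈ AA (oddγ g) a, ∀ n : ℕ, f ^ n ∈ AA (oddγ g) a := by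
    intro f hf n
    induction n with
    | zero => rw [pow_zero]; exact h1A
    | succ n ih => rw [pow_succ]; exact kb_mul _ ih _ hf
  have hpowP : ∀ f ∈ PS K, ∀ n : ℕ, f ^ n ∈ PS K := by
    intro f hf n
    induction n with
    | zero => rw [pow_zero]; exact one_mem_PS
    | succ n ih => rw [pow_succ]; exact PS_mul ih hf
  obtain ⟨U, hU⟩ : ∃ U : AddSubgroup (LS K), ∀ f, f ∈ U ↔ ∃ α ∈ AA (oddγ g) a, ∃ o ∈ PS K, f ^ p ^ N = α + o := by
    refine ⟨{ carrier := {f | ∃ α ∈ AA (oddγ g) a, ∃ o ∈ PS K, f ^ p ^ N = α + o}, add_mem' := ?_, zero_mem' := ?_, neg_mem' := ?_ }, fun f => Iff.rfl⟩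
    · rintro f h ⟨α, hα, o, ho, e⟩ ⟨α', hα', o', ho', e'⟩
      refine ⟨α + α', Submodule.add_mem _ hα hα', o + o', Submodule.add_mem _ ho ho', ?_⟩
      rw [add_pow_char_pow, e, e']
      ring
    · refine ⟨0, Submodule.zero_mem _, 0, Submodule.zero_mem _, ?_⟩
      rw [zero_pow (pow_ne_zero _ hp.out.ne_zero), add_zero]
    · rintro f ⟨α, hα, o, ho, e⟩
      refine ⟨(-1) ^ p ^ N * α, ?_, (-1) ^ p ^ N * o, ?_, ?_⟩
      · rcases neg_one_pow_eq_or (LS K) (p ^ N) with h | h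
        · rw [h, one_mul]; exact hα
        · rw [h, neg_one_mul]; exact Submodule.neg_mem _ hα
      · rcases neg_one_pow_eq_or (LS K) (p ^ N) with h | h
        · rw [h, one_mul]; exact ho
        · rw [h, neg_one_mul]; exact Submodule.neg_mem _ ho
      · rw [neg_pow, e]
        ring
  have hx0 : x ≠ 0 := by
    rintro rfl
    exact hx1 (cf_zero _)
  refine nil_of hCRD hPF p K (oddγ g) a hK N fun f => (hU f).mp (all_of U ?_ ?_ ?_ f)
  · intro o ho
    exact (hU o).mpr ⟨0, Submodule.zero_mem _, o ^ p ^ N, hpowP o ho _, by rw [zero_add]⟩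
  · intro c f hf
    obtain ⟨α, hα, o, ho, e⟩ := (hU f).mp hf
    refine (hU _).mpr ⟨c ^ p ^ N • α, Submodule.smul_mem _ _ hα, c ^ p ^ N • o, Submodule.smul_mem _ _ ho, ?_⟩
    rw [smul_pow, e, smul_add]
  · intro n hn
    have hAU : ∀ f ∈ AA (oddγ g) a, f ∈ U := fun f hf =>
      (hU f).mpr ⟨f ^ p ^ N, hpowA f hf _, 0, Submodule.zero_mem _, by rw [add_zero]⟩
    by_cases hgap : Gp (oddγ g) n
    · have h1 := (Gp_oddγ g n).mp hgap
      obtain ⟨j, hj⟩ : ∃ j : ℕ, n + 2 * j = 2 * g + 1 := ⟨(2 * g + 1 - n) / 2, by omega⟩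
      refine ⟨y * (x ^ j)⁻¹, (hU _).mpr (hz j (by omega) (by omega)), ?_⟩
      obtain ⟨h2, h3⟩ := pow_lead hx j
      obtain ⟨h4, h5⟩ := FT_inv h2 (by rw [h3]; exact pow_ne_zero _ hx1)
      have e : -(n : ℤ) = -((2 * g + 1 : ℕ) : ℤ) + -((j : ℤ) * -2) := by
        have : (n : ℤ) + 2 * j = ((2 * g + 1 : ℕ) : ℤ) := by exact_mod_cast hj
        rw [← this]
        ring
      rw [e]
      exact ⟨GE_mul hy h4, by rw [cf_mul_lead hy h4]; exact mul_ne_zero hy1 h5⟩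
    · rcases hv_cases g n hgap with ⟨i, rfl⟩ | ⟨i, rfl⟩
      · refine ⟨x ^ i, hAU _ (by rw [hA]; exact hv_x_mem g x y i), ?_⟩
        obtain ⟨h1, h2⟩ := pow_lead hx i
        have e : -((2 * i : ℕ) : ℤ) = (i : ℤ) * -2 := by push_cast; ring
        rw [e]
        exact ⟨h1, by rw [h2]; exact pow_ne_zero _ hx1⟩
      · refine ⟨x ^ i * y, hAU _ (by rw [hA]; exact hv_y_mem g x y i), ?_⟩
        obtain ⟨h1, h2⟩ := pow_lead hx i
        have e : -((2 * g + 1 + 2 * i : ℕ) : ℤ) = (i : ℤ) * -2 + -((2 * g + 1 : ℕ) : ℤ) := by push_cast; ring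
        rw [e]
        exact ⟨GE_mul h1 hy, by rw [cf_mul_lead h1 hy, h2]; exact mul_ne_zero (pow_ne_zero _ hx1) hy1⟩

end

end EXI
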