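import Pool.Agent.helper50.EXI.Hyp
import Pool.Agent.helper48.AN.SpecF

/-!
# Project EXI: curves of genus `g` and 2-rank 0 in characteristic 2

The curve `y^2 + y = x^(2g+1)`.
-/

set_option autoImplicit false

namespace EXI

open scoped Classical
open AN NPT

noncomputable section

variable {K : Type} [Field K]

theorem P2_x (hFCR : FCR_stmt) [IsAlgClosed K] [CharP K 2] (g : ℕ) :
    ∃ x : LS K, x ∈ GE K (-2) ∧ cf x (-2) = 1 ∧ Hom (2 * g + 1) (-2) x ∧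
      x ^ (2 * g + 1) = (mono (-((2 * g + 1 : ℕ) : ℤ)) 1) ^ 2 + mono (-((2 * g + 1 : ℕ) : ℤ)) 1 := by
  obtain ⟨n, hn⟩ : ∃ n : ℕ, n = 2 * g + 1 := ⟨_, rfl⟩
  rw [← hn]
  have hn0 : 0 < n := by omega
  have hnK : (n : K) ≠ 0 := by
    rw [hn]
    push_cast
    have : (2 : K) = 0 := by exact_mod_cast CharP.cast_eq_zero K 2
    rw [this, zero_mul, zero_add]
    exact one_ne_zero
  obtain ⟨y, hy⟩ : ∃ y : LS K, y = mono (-(n : ℤ)) 1 + mono (-(n : ℤ) + 1) 1 := ⟨_, rfl⟩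
  have hyGE : y ∈ GE K (-(n : ℤ)) := by
    rw [hy]
    exact Submodule.add_mem _ (mono_mem_GE _ _) (GE_mono (by omega) (mono_mem_GE _ _))
  have hyc : cf y (-(n : ℤ)) = 1 := by
    rw [hy, cf_add, cf_mono, cf_mono, if_pos rfl, if_neg (by omega), add_zero]
  obtain ⟨σ, hσ, hσ1, hσy⟩ := hFCR K n hn0 hnK y hyGE (by rw [hyc]; exact one_ne_zero)
  obtain ⟨hτ, hτ1⟩ := FT_inv hσ hσ1
  obtain ⟨τ, hτe⟩ : ∃ τ : LS K, τ = σ⁻¹ := ⟨_, rfl⟩
  rw [← hτe] at hτ hτ1
  have hτn : τ ^ n = y := by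
    rw [hτe, inv_pow]
    exact inv_eq_of_mul_eq_one_right hσy
  have hc1 : cf τ (-1) ^ n = 1 := by
    have h1 := (pow_lead hτ n).2
    rw [hτn] at h1
    have e : (n : ℤ) * -1 = -(n : ℤ) := by ring
    rw [e, hyc] at h1
    exact h1.symm
  obtain ⟨c, hc⟩ : ∃ c : K, c = (cf τ (-1))⁻¹ := ⟨_, rfl⟩
  have hcn : c ^ n = 1 := by rw [hc, inv_pow, hc1, inv_one]
  have hcτ : c * cf τ (-1) = 1 := by rw [hc]; exact inv_mul_cancel₀ hτ1
  obtain ⟨ψ, hψ⟩ : ∃ ψ, ψ = FC1_rho K n hn0 := ⟨_, rfl⟩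
  refine ⟨mono ((n : ℤ) - 2) c * ψ τ, ?_, ?_, ?_, ?_⟩
  · have h1 : ψ τ ∈ GE K (n * -1) := by rw [hψ]; exact FC1_rho_GE hn0 τ _ hτ
    exact GE_mono (by omega) (GE_mul (mono_mem_GE ((n : ℤ) - 2) c) h1)
  · rw [cf_mono_mul]
    have e : (-2 : ℤ) - (n - 2) = n * -1 := by ring
    rw [e, hψ, FC1_cf_rho hn0, hcτ]
  · have h1 : Hom n 0 (ψ τ) := by
      intro m hm
      rw [sub_zero]
      by_contra hd
      exact hm (by rw [hψ]; exact FC1_cf_rho_ne hn0 _ _ hd)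
    have h2 := (Hom.mono n ((n : ℤ) - 2) c).mul h1
    refine h2.congr ?_
    exact ⟨1, by ring⟩
  · rw [mul_pow, mono_pow, hcn, ← map_pow, hτn, hy, map_add, hψ, FC1_rho_mono, FC1_rho_mono, mul_add,
      mono_mul_mono, mono_mul_mono, mono_pow]
    rw [show (n : ℤ) * ((n : ℤ) - 2) + n * -n = (2 : ℕ) * -n by push_cast; ring,
      show (n : ℤ) * ((n : ℤ) - 2) + n * (-n + 1) = -n by ring, one_mul, one_pow]


theorem P2_res [CharP K 2] (g : ℕ) (x y : LS K) (hxy : x ^ (2 * g + 1) = y ^ 2 + y) (hhom : Hom (2 * g + 1) (-2) x)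
    (hy : y = mono (-((2 * g + 1 : ℕ) : ℤ)) 1) (hdy : x ^ (2 * g) * dd x = dd y)
    (hdy' : dd y = mono (-((2 * g + 1 : ℕ) : ℤ) - 1) 1) (i : ℕ) :
    ∀ j : ℕ, res (x ^ i * y ^ j * dd x) = 0 := by
  induction i using Nat.strong_induction_on with
  | _ i ih =>
    intro j
    rcases lt_trichotomy i (2 * g) with h | h | h
    · by_contra hne
      have h1 := ((hhom.pow i).mul ((Hom.mono (2 * g + 1) (-((2 * g + 1 : ℕ) : ℤ)) (1 : K)).pow j)).mul hhom.dd
      rw [← hy] at h1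
      have h2 := h1 (-1) hne
      have e : (-1 : ℤ) - (↑i * -2 + ↑j * -((2 * g + 1 : ℕ) : ℤ) + (-2 - 1)) =
          2 * ((i + 1 : ℕ) : ℤ) + ((2 * g + 1 : ℕ) : ℤ) * j := by push_cast; ring
      rw [e] at h2
      have h3 : ((2 * g + 1 : ℕ) : ℤ) ∣ 2 * ((i + 1 : ℕ) : ℤ) := (dvd_add_left (dvd_mul_right _ _)).mp h2
      have h4 : (2 * g + 1) ∣ 2 * (i + 1) := by exact_mod_cast h3
      have h5 : Nat.Coprime (2 * g + 1) 2 := by
        rw [Nat.coprime_two_right]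
        exact ⟨g, rfl⟩
      have h6 := h5.dvd_of_dvd_mul_left h4
      have h7 := Nat.le_of_dvd (by omega) h6
      omega
    · subst h
      have e : x ^ (2 * g) * y ^ j * dd x = y ^ j * dd y := by rw [← hdy]; ring
      rw [e, hdy', hy, mono_pow, mono_mul_mono]
      unfold res
      rw [cf_mono, if_neg]
      intro hc
      have h1 : ((2 * g + 1 : ℕ) : ℤ) * (j + 1) = 0 := by linear_combination hc
      rcases mul_eq_zero.mp h1 with h2 | h2
      · push_cast at h2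
        omega
      · omega
    · obtain ⟨m, rfl⟩ : ∃ m, i = (2 * g + 1) + m := ⟨i - (2 * g + 1), by omega⟩
      have e : x ^ (2 * g + 1 + m) * y ^ j * dd x = x ^ m * y ^ (j + 2) * dd x + x ^ m * y ^ (j + 1) * dd x := by
        rw [pow_add, hxy]
        ring
      rw [e, res_add, ih m (by omega), ih m (by omega), add_zero]

theorem P2 (hFCR : FCR_stmt) (hCRD : CRD_stmt) (hPF : PF_stmt) (hKB : KB_stmt) (K : Type) [Field K]
    [IsAlgClosed K] [CharP K 2] (g : ℕ) :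
    ∃ (γ : Fin g → ℕ) (a : ℕ → LS K), IsK γ a ∧ MN 2 (HW 2 γ a) g = 0 := by
  have : Fact (Nat.Prime 2) := ⟨Nat.prime_two⟩
  have hchar : CharP (LS K) 2 := charP_of_injective_ringHom (f := (LS.C : K →+* LS K)) HahnSeries.C_injective 2
  obtain ⟨x, hx, hx1, hhom, hxn⟩ := P2_x (K := K) hFCR g
  obtain ⟨y, hy⟩ : ∃ y : LS K, y = mono (-((2 * g + 1 : ℕ) : ℤ)) 1 := ⟨_, rfl⟩
  rw [← hy] at hxn
  have h2K : (2 : K) = 0 := by exact_mod_cast CharP.cast_eq_zero K 2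
  have h2L : (2 : LS K) = 0 := by exact_mod_cast CharP.cast_eq_zero (LS K) 2
  have hyGE : y ∈ GE K (-((2 * g + 1 : ℕ) : ℤ)) := by rw [hy]; exact mono_mem_GE _ _
  have hy1 : cf y (-((2 * g + 1 : ℕ) : ℤ)) = 1 := by rw [hy, cf_mono, if_pos rfl]
  have hdy' : dd y = mono (-((2 * g + 1 : ℕ) : ℤ) - 1) 1 := by
    rw [hy, dd_mono]
    congr 1
    push_cast
    linear_combination (-(g : K) - 1) * h2K
  have hdy : x ^ (2 * g) * dd x = dd y := by
    have h1 := congrArg dd hxn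
    rw [map_add, dd_pow_char 2 y 2 dvd_rfl, zero_add, dd_pow] at h1
    rw [← h1]
    have e : ((2 * g + 1 : ℕ) : LS K) = 1 := by
      push_cast
      rw [h2L, zero_mul, zero_add]
    rw [e, one_mul]
    congr 1
  have hx0 : x ≠ 0 := by
    rintro rfl
    rw [cf_zero] at hx1
    exact zero_ne_one hx1
  -- the order of dx
  obtain ⟨hxg, hxg1⟩ := pow_lead hx (2 * g)
  obtain ⟨hxi, hxi1⟩ := FT_inv hxg (by rw [hxg1, hx1, one_pow]; exact one_ne_zero)
  have hdx : dd x = (x ^ (2 * g))⁻¹ * dd y := by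
    rw [← hdy, ← mul_assoc, inv_mul_cancel₀ (pow_ne_zero _ hx0), one_mul]
  have hdyGE : dd y ∈ GE K (-((2 * g + 1 : ℕ) : ℤ) - 1) := by rw [hdy']; exact mono_mem_GE _ _
  have eo : 2 * (g : ℤ) - 2 = -(((2 * g : ℕ) : ℤ) * -2) + (-((2 * g + 1 : ℕ) : ℤ) - 1) := by push_cast; ring
  have hω : dd x ∈ GE K (2 * (g : ℤ) - 2) := by
    rw [eo, hdx]
    exact GE_mul hxi hdyGE
  have hω1 : cf (dd x) (2 * (g : ℤ) - 2) ≠ 0 := by
    rw [eo, hdx, cf_mul_lead hxi hdyGE, hdy', cf_mono, if_pos rfl, mul_one]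
    exact hxi1
  have hA1 : (1 : LS K) ∈ AA (oddγ g) (hv g x y) := by simpa using hv_x_mem g x y 0
  have hxA : x ∈ AA (oddγ g) (hv g x y) := by simpa using hv_x_mem g x y 1
  have hyA : y ∈ AA (oddγ g) (hv g x y) := by simpa using hv_y_mem g x y 0
  have hy2 : y ^ 2 = x ^ (2 * g + 1) - y := by rw [hxn]; ring
  obtain ⟨hK, hAA⟩ := hv_isK g x y (dd x) hx hx1 hyGE hy1
    (by rw [hy2]; exact Submodule.sub_mem _ (hv_x_mem g x y _) hyA) hω hω1
    (Submodule.subset_span ⟨1, hA1, x, hxA, (one_mul _).symm⟩)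
    (by
      have hS : AA (oddγ g) (hv g x y) ≤
          ({ carrier := {f | res (f * dd x) = 0}
             add_mem' := fun {a b} ha hb => by
               show res ((a + b) * dd x) = 0
               rw [add_mul, res_add, show res (a * dd x) = 0 from ha, show res (b * dd x) = 0 from hb, add_zero]
             zero_mem' := by
               show res (0 * dd x) = 0
               rw [zero_mul]; rfl
             smul_mem' := fun c a ha => by
               show res (c • a * dd x) = 0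
               rw [smul_mul_assoc, res_smul, show res (a * dd x) = 0 from ha, mul_zero] } : Submodule K (LS K)) := by
        apply hv_ind
        · intro i
          have h1 := P2_res g x y hxn hhom hy hdy hdy' i 0
          rw [pow_zero, mul_one] at h1
          exact h1
        · intro i
          have h1 := P2_res g x y hxn hhom hy hdy hdy' i 1
          rw [pow_one] at h1
          exact h1
      exact fun f hf => hS hf)
    ⟨1, hA1, (one_mul _).symm⟩ ⟨x ^ (2 * g), hv_x_mem g x y _, hdy.symm⟩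
  refine ⟨oddγ g, ech (oddγ g) (hv g x y), hK, ?_⟩
  have hKB' := hKB K g (oddγ g) _ hK
  obtain ⟨-, kb_C, -, kb_mul, -, -, -, -⟩ := hKB'
  refine hv_nil hCRD hPF hKB 2 g x y hx (by rw [hx1]; exact one_ne_zero) hyGE (by rw [hy1]; exact one_ne_zero)
    _ hK hAA g ?_
  -- Frobenius on the `y / x^j`
  have hsq : ∀ m : ℕ, ∃ α ∈ AA (oddγ g) (ech (oddγ g) (hv g x y)), ∃ o ∈ PS K,
      (y * (x ^ m)⁻¹) ^ 2 = y * (x ^ (2 * m))⁻¹ + α + o := by
    intro m
    have e1 : (y * (x ^ m)⁻¹) ^ 2 = x ^ (2 * g + 1) * (x ^ (2 * m))⁻¹ + y * (x ^ (2 * m))⁻¹ := by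
      rw [mul_pow, hy2, inv_pow, ← pow_mul, mul_comm m 2]
      linear_combination (-(y * (x ^ (2 * m))⁻¹)) * h2L
    rcases le_or_gt (2 * m) (2 * g + 1) with h | h
    · refine ⟨x ^ (2 * g + 1 - 2 * m), ?_, 0, Submodule.zero_mem _, ?_⟩
      · rw [hAA]; exact hv_x_mem g x y _
      · rw [e1]
        have e2 : x ^ (2 * g + 1) = x ^ (2 * g + 1 - 2 * m) * x ^ (2 * m) := by
          rw [← pow_add]; congr 1; omega
        rw [e2, mul_assoc, mul_inv_cancel₀ (pow_ne_zero _ hx0)]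
        ring
    · refine ⟨0, Submodule.zero_mem _, x ^ (2 * g + 1) * (x ^ (2 * m))⁻¹, ?_, ?_⟩
      · obtain ⟨h1, -⟩ := pow_lead hx (2 * g + 1)
        obtain ⟨h2, h3⟩ := pow_lead hx (2 * m)
        obtain ⟨h4, -⟩ := FT_inv h2 (by rw [h3, hx1, one_pow]; exact one_ne_zero)
        exact GE_mono (by push_cast at h ⊢; omega) (GE_mul h1 h4)
      · rw [e1]; ring
  have hit : ∀ k m : ℕ, ∃ α ∈ AA (oddγ g) (ech (oddγ g) (hv g x y)), ∃ o ∈ PS K,
      (y * (x ^ m)⁻¹) ^ 2 ^ k = y * (x ^ (2 ^ k * m))⁻¹ + α + o := by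
    intro k
    induction k with
    | zero =>
      intro m
      refine ⟨0, Submodule.zero_mem _, 0, Submodule.zero_mem _, ?_⟩
      rw [pow_zero, pow_one, one_mul]
      ring
    | succ k ih =>
      intro m
      obtain ⟨α, hα, o, ho, e⟩ := ih m
      obtain ⟨α', hα', o', ho', e'⟩ := hsq (2 ^ k * m)
      refine ⟨α' + α * α, Submodule.add_mem _ hα' (kb_mul _ hα _ hα), o' + o * o,
        Submodule.add_mem _ ho' (PS_mul ho ho), ?_⟩
      rw [pow_succ, pow_mul, e, show 2 ^ k * 2 * m = 2 * (2 ^ k * m) by ring]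
      linear_combination e' + (y * (x ^ (2 ^ k * m))⁻¹ * α + y * (x ^ (2 ^ k * m))⁻¹ * o + α * o) * h2L
  intro j hj1 hjg
  obtain ⟨α, hα, o, ho, e⟩ := hit g j
  refine ⟨α, hα, y * (x ^ (2 ^ g * j))⁻¹ + o, ?_, by rw [e]; ring⟩
  refine Submodule.add_mem _ ?_ ho
  obtain ⟨h2, h3⟩ := pow_lead hx (2 ^ g * j)
  obtain ⟨h4, -⟩ := FT_inv h2 (by rw [h3, hx1, one_pow]; exact one_ne_zero)
  have h5 : g + 1 ≤ 2 ^ g * j := by
    have h6 : g < 2 ^ g := Nat.lt_two_pow_self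
    nlinarith
  refine GE_mono ?_ (GE_mul hyGE h4)
  have h7 : ((g + 1 : ℕ) : ℤ) ≤ ((2 ^ g * j : ℕ) : ℤ) := by exact_mod_cast h5
  push_cast at h7 ⊢
  linarith

end

end EXI
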